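import Pool.Agent.H752.KM.Stubs
import Pool.Agent.H620R2.Gauge.A1

/-!
# K4e: countable union and limits (project KM of helper752)
-/

namespace Pool.Agent.H752.KM

open Pool.Agent.NPC Pool.Agent.H620R2.Gauge MeasureTheory Finset

namespace K4e_ns

theorem length_WA (P : Polynomial ℕ) (A : Oracle) (l : ℕ) : (WA P A l).length = l := by
  simp [WA, Wd]

theorem prefix_eq {P : Polynomial ℕ} {A : Oracle} {w : List Bool} (h : Prefix w (TL P A)) :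
    w = WA P A w.length := by
  apply List.ext_getElem
  · rw [length_WA]
  · intro i h1 h2
    have h3 := h i h1
    by_cases h4 : str i ∈ TL P A
    · have h5 := h3.1 h4
      rw [h5]
      simp [WA, Wd, h4]
    · have h5 : w[i] = false := by
        rcases hw : w[i] with _ | _
        · rfl
        · exact absurd (h3.2 hw) h4
      rw [h5]
      simp [WA, Wd, h4]

/-- the oracles relative to which the pair `(M, t)` computes a null cover -/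
def GG (X : Oracle → Set (Set (List Bool))) (M : Alg) (t : ℕ → ℕ) : Set Oracle :=
  {A | ∃ d : ℕ → List Bool → ℝ, Computes (Fof M t A) d ∧ (∀ k, Density (d k)) ∧
    (∀ k, d k [] ≤ 2⁻¹ ^ k) ∧ ∀ k, ∀ L ∈ X A, ∃ w, Prefix w L ∧ 1 ≤ d k w}

/-- the increasing events -/
def SS (M : Alg) (t : ℕ → ℕ) (P : Polynomial ℕ) (k : ℕ) (κ : ℝ) (i₀ L : ℕ) : Set Oracle :=
  {A | (∀ l, i₀ ≤ l → cap (Fof M t A) k (WA P A l ++ [false]) +
        cap (Fof M t A) k (WA P A l ++ [true]) ≤ 2 * cap (Fof M t A) k (WA P A l)) ∧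
      cap (Fof M t A) k (WA P A i₀) ≤ κ ∧
      ∃ l, i₀ ≤ l ∧ l ≤ L ∧ 1 ≤ cap (Fof M t A) k (WA P A l)}

theorem bound (hb : St_bad) (hs : St_sum) (hc : St_cap)
    (X : Oracle → Set (Set (List Bool))) (M : Alg) (t : ℕ → ℕ) (k n₀ : ℕ) (P : Polynomial ℕ)
    (hP0 : ∀ A, TL P A ∈ X A) (hP1 : ∀ n, 1 ≤ P.eval n) (hP2 : ∀ n, 2 * n ≤ P.eval n)
    (hP3 : ∀ n N, N ≤ 5 * 2 ^ (n + 1) + 4 * k + 8 → t N * (3 * 4 ^ n) ≤ 2 ^ P.eval n)
    (hκ : (2:ℝ) ^ (2 ^ n₀ - 1) * (2 * 2⁻¹ ^ k) < 1) :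
    ranO (GG X M t) ≤
      ENNReal.ofReal ((2:ℝ) ^ (2 ^ n₀ - 1) * (2 * 2⁻¹ ^ k) * Real.exp 8 + 8 / 2 ^ n₀) := by
  obtain ⟨κ, hκd⟩ : ∃ κ : ℝ, κ = (2:ℝ) ^ (2 ^ n₀ - 1) * (2 * 2⁻¹ ^ k) := ⟨_, rfl⟩
  obtain ⟨i₀, hi₀⟩ : ∃ i₀ : ℕ, i₀ = 2 ^ n₀ - 1 := ⟨_, rfl⟩
  rw [← hκd] at hκ ⊢
  have hκ0 : 0 ≤ κ := by rw [hκd]; positivity
  have hmono : Monotone (fun L => SS M t P k κ i₀ (i₀ + L)) := by
    intro L L' hL A hA
    obtain ⟨h1, h2, l, h3, h4, h5⟩ := hA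
    exact ⟨h1, h2, l, h3, h4.trans (by simpa using hL), h5⟩
  have hsub : GG X M t ⊆ ⋃ L, SS M t P k κ i₀ (i₀ + L) := by
    intro A hA
    obtain ⟨d, h1, h2, h3, h4⟩ := hA
    obtain ⟨c1, c2, c3, c4⟩ := hc (Fof M t A) d k h1 (h2 k) (h3 k)
    obtain ⟨w, hw1, hw2⟩ := h4 k _ (hP0 A)
    have hw3 := prefix_eq hw1
    have hw4 : i₀ ≤ w.length := by
      by_contra hlt
      have h5 : (1:ℝ) ≤ 2 ^ w.length * (2 * 2⁻¹ ^ k) := hw2.trans ((c2 w).trans (c4 w))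
      have h6 : (2:ℝ) ^ w.length ≤ 2 ^ (2 ^ n₀ - 1) := by
        apply pow_le_pow_right₀ (by norm_num)
        omega
      have h7 : (2:ℝ) ^ w.length * (2 * 2⁻¹ ^ k) ≤ κ := by
        rw [hκd]
        exact mul_le_mul_of_nonneg_right h6 (by positivity)
      linarith
    refine Set.mem_iUnion.2 ⟨w.length, fun l _ => c1 _, ?_, w.length, hw4, by omega, ?_⟩
    · refine (c4 _).trans ?_
      rw [length_WA, hκd, hi₀]
    · rw [← hw3]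
      exact hw2.trans (c2 w)
  refine (measure_mono hsub).trans ?_
  rw [hmono.measure_iUnion]
  refine iSup_le fun L => ?_
  have hsub2 : SS M t P k κ i₀ (i₀ + L) ⊆ Bad M t P k κ i₀ (i₀ + L) := by
    intro A hA
    exact ⟨fun l hl _ => hA.1 l hl, hA.2⟩
  refine (measure_mono hsub2).trans ((hb M t P k κ i₀ (i₀ + L) hP1 hκ0 (by omega)).trans ?_)
  apply ENNReal.ofReal_le_ofReal
  rw [hi₀]
  exact hs t P k n₀ (2 ^ n₀ - 1 + L) κ hκ0 (by omega) hP1 hP2 hP3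

end K4e_ns

open K4e_ns in
theorem t_main (hb : St_bad) (hs : St_sum) (hc : St_cap) : St_main := by
  intro T X hT hP
  have hsub : {A | MNull T A (X A)} ⊆ ⋃ M : Alg, ⋃ t ∈ T, GG X M t := by
    intro A hA
    obtain ⟨d, F, ⟨M, t, ht, hrun⟩, h1, h2, h3, h4⟩ := hA
    have hF : Fof M t A = F := by
      funext x
      rw [Fof, hrun x]
      rfl
    refine Set.mem_iUnion.2 ⟨M, Set.mem_iUnion₂.2 ⟨t, ht, d, ?_, h2, h3, h4⟩⟩
    rw [hF]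
    exact h1
  refine measure_mono_null hsub ?_
  refine measure_iUnion_null fun M => (measure_biUnion_null_iff hT).2 fun t ht => ?_
  have key : ∀ ε : ℝ, 0 < ε → ranO (GG X M t) ≤ ENNReal.ofReal ε := by
    intro ε hε
    obtain ⟨n₀, hn₀⟩ : ∃ n₀ : ℕ, 8 / (2:ℝ) ^ n₀ < ε / 2 := by
      obtain ⟨n, hn⟩ := pow_unbounded_of_one_lt (16 / ε) (by norm_num : (1:ℝ) < 2)
      refine ⟨n, ?_⟩
      rw [div_lt_iff₀ hε] at hn
      rw [div_lt_iff₀ (by positivity)]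
      linarith
    obtain ⟨k, hk⟩ : ∃ k : ℕ, (2⁻¹ : ℝ) ^ k <
        min 1 (ε / 2) / ((2:ℝ) ^ (2 ^ n₀ - 1) * 2 * Real.exp 8) := by
      apply exists_pow_lt_of_lt_one
      · have : 0 < min 1 (ε / 2) := lt_min one_pos (by linarith)
        positivity
      · norm_num
    rw [lt_div_iff₀ (by positivity)] at hk
    have hk1 : (2⁻¹ : ℝ) ^ k * ((2:ℝ) ^ (2 ^ n₀ - 1) * 2 * Real.exp 8) < 1 :=
      hk.trans_le (min_le_left _ _)
    have hk2 : (2⁻¹ : ℝ) ^ k * ((2:ℝ) ^ (2 ^ n₀ - 1) * 2 * Real.exp 8) < ε / 2 :=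
      hk.trans_le (min_le_right _ _)
    obtain ⟨P, hP0, hP1, hP2, hP3⟩ := hP t ht k
    have hexp : (1:ℝ) ≤ Real.exp 8 := Real.one_le_exp (by norm_num)
    have hκ : (2:ℝ) ^ (2 ^ n₀ - 1) * (2 * 2⁻¹ ^ k) < 1 := by
      have h0 : (0:ℝ) ≤ (2:ℝ) ^ (2 ^ n₀ - 1) * (2 * 2⁻¹ ^ k) := by positivity
      have h1 : (2:ℝ) ^ (2 ^ n₀ - 1) * (2 * 2⁻¹ ^ k) * 1 ≤
          (2:ℝ) ^ (2 ^ n₀ - 1) * (2 * 2⁻¹ ^ k) * Real.exp 8 :=
        mul_le_mul_of_nonneg_left hexp h0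
      have h2 : (2:ℝ) ^ (2 ^ n₀ - 1) * (2 * 2⁻¹ ^ k) * Real.exp 8 =
        (2⁻¹ : ℝ) ^ k * ((2:ℝ) ^ (2 ^ n₀ - 1) * 2 * Real.exp 8) := by ring
      linarith
    refine (bound hb hs hc X M t k n₀ P hP0 hP1 hP2 hP3 hκ).trans ?_
    apply ENNReal.ofReal_le_ofReal
    have h2 : (2:ℝ) ^ (2 ^ n₀ - 1) * (2 * 2⁻¹ ^ k) * Real.exp 8 =
      (2⁻¹ : ℝ) ^ k * ((2:ℝ) ^ (2 ^ n₀ - 1) * 2 * Real.exp 8) := by ring
    linarith
  by_contra hne
  have hfin : ranO (GG X M t) ≠ ⊤ := measure_ne_top _ _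
  have hpos : 0 < (ranO (GG X M t)).toReal := ENNReal.toReal_pos hne hfin
  have h1 := key _ (half_pos hpos)
  have h2 : (ranO (GG X M t)).toReal ≤ (ranO (GG X M t)).toReal / 2 := by
    have := ENNReal.toReal_mono ENNReal.ofReal_ne_top h1
    rwa [ENNReal.toReal_ofReal (half_pos hpos).le] at this
  linarith

end Pool.Agent.H752.KM
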